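import Pool.Agent.N881.GW.P2

/-!
# The analytic continuation of the L-series of elliptic curves, read off at the single point `3/2`

`E` is an elliptic curve over a number field and `L(E, s) = ∑ a_n n^{-s}` for `Re s > 3/2`, with real
`a_n`.  The analytic continuation of `L(E, s)` to a half-plane `Re s > 3/2 - δ`, and to `ℂ`, is
characterised by the size of the Gaussian averages of the real numbers `a_n n^{-3/2}` in windows around
`x`; no other height on the line `Re s = 3/2` is used.  If `L(E, s)` has no singularity on the real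
axis, then bounds from one side are enough.
-/

set_option autoImplicit false

namespace Pool.Agent.Results.MP_7ed9c3_nt.OnePointCriterion

open NumberField IsDedekindDomain

/-- `W v` is, for every finite place `v`, an integral model of `E` with discriminant minimal at
`v`. -/
def MinimalModels {K : Type} [Field K] [NumberField K] (E : WeierstrassCurve K)
    (W : HeightOneSpectrum (𝓞 K) → WeierstrassCurve (𝓞 K)) : Prop :=
  ∀ v : HeightOneSpectrum (𝓞 K),
    (∃ C : WeierstrassCurve.VariableChange K, C • (W v).map (algebraMap (𝓞 K) K) = E) ∧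
    ∀ W' : WeierstrassCurve (𝓞 K),
      (∃ C : WeierstrassCurve.VariableChange K, C • W'.map (algebraMap (𝓞 K) K) = E) →
      ∀ n : ℕ, (W v).Δ ∈ v.asIdeal ^ n → W'.Δ ∈ v.asIdeal ^ n

section

variable {K : Type} [Field K] [NumberField K]

/-- `a_v`, the norm `Nv` minus the number of affine points of the reduction of `W v`. -/
noncomputable def trace (W : HeightOneSpectrum (𝓞 K) → WeierstrassCurve (𝓞 K))
    (v : HeightOneSpectrum (𝓞 K)) : ℤ :=
  (Ideal.absNorm v.asIdeal : ℤ)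
    - (Nat.card {xy : (𝓞 K ⧸ v.asIdeal) × (𝓞 K ⧸ v.asIdeal) //
        ((W v).map (Ideal.Quotient.mk v.asIdeal)).toAffine.Equation xy.1 xy.2} : ℤ)

open Classical in
/-- `Nv` if the reduction at `v` is good and `0` if it is bad. -/
noncomputable def det (W : HeightOneSpectrum (𝓞 K) → WeierstrassCurve (𝓞 K))
    (v : HeightOneSpectrum (𝓞 K)) : ℤ :=
  if (W v).Δ ∈ v.asIdeal then 0 else (Ideal.absNorm v.asIdeal : ℤ)

/-- The Euler factor at `v`, `(1 - a_v Nv^{-s} + Nv^{1-2s})⁻¹` if the reduction at `v` is good and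
`(1 - a_v Nv^{-s})⁻¹` if it is bad. -/
noncomputable def localFactor (W : HeightOneSpectrum (𝓞 K) → WeierstrassCurve (𝓞 K))
    (v : HeightOneSpectrum (𝓞 K)) (s : ℂ) : ℂ :=
  (1 - (trace W v : ℂ) * (Ideal.absNorm v.asIdeal : ℂ) ^ (-s)
    + (det W v : ℂ) * (Ideal.absNorm v.asIdeal : ℂ) ^ (-2 * s))⁻¹

/-- The `L`-series, as the Euler product over all finite places. -/
noncomputable def eulerProduct (W : HeightOneSpectrum (𝓞 K) → WeierstrassCurve (𝓞 K)) (s : ℂ) : ℂ :=
  ∏' v : HeightOneSpectrum (𝓞 K), localFactor W v s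

end

/-- `L` has an analytic continuation from `Re s > 3/2` to `Re s > 3/2 - δ`. -/
def Continues (L : ℂ → ℂ) (δ : ℝ) : Prop :=
  ∃ F : ℂ → ℂ, (∀ s : ℂ, 3 / 2 - δ < s.re → AnalyticAt ℂ F s) ∧
    ∀ s : ℂ, 3 / 2 < s.re → F s = L s

/-- `L` has an analytic continuation from `Re s > 3/2` to `ℂ`. -/
def ContinuesToPlane (L : ℂ → ℂ) : Prop :=
  ∃ F : ℂ → ℂ, Differentiable ℂ F ∧ ∀ s : ℂ, 3 / 2 < s.re → F s = L s

/-- The Gaussian average of the `a_n n^{-3/2}` in the window around `x`,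
`√(A / (π log x)) ∑ a_n n^{-3/2} exp (-A (log (n/x))² / log x)`. -/
noncomputable def average (a : ℕ → ℝ) (A x : ℝ) : ℝ :=
  √(A / (Real.pi * Real.log x)) * ∑' n : ℕ, a n * (n : ℝ) ^ (-(3 / 2) : ℝ) *
    Real.exp (-(A * (Real.log n - Real.log x) ^ 2 / Real.log x))

/-- **The one-point criterion.**  Let `E` be an elliptic curve over a number field `K`.  There are
real numbers `a_n` such that `∑ a_n n^{-s}` converges absolutely to `L(E, s)` for `Re s > 3/2`, with the
following properties.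

1. For every `δ > 0` the following are equivalent: `L(E, s)` has an analytic continuation to
   `Re s > 3/2 - δ`; for all `0 < κ < δ` and all `A ≥ κ / 2` the averages are
   `O(x^{-(κ - κ²/(4A))})`; for all `0 < κ < δ` and all large `A` they are `O(x^{-κ})`; for all
   `0 < κ < δ` there are arbitrarily large `A` for which they are `O(x^{-κ})`.
2. The following are equivalent: `L(E, s)` has an analytic continuation to `ℂ`; the averages are
   `O(x^{-A})` for every `A > 0`; for all `κ > 0` there are arbitrarily large `A` for which they are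
   `O(x^{-κ})`.
3. Let `ε = ±1` and let `L(E, s)` have an analytic continuation to a neighbourhood of the real
   numbers `x > 3/2 - δ`.  Then `L(E, s)` has an analytic continuation to `Re s > 3/2 - δ` if and
   only if for all `0 < κ < δ` there are arbitrarily large `A` and a `C` such that `ε` times the average
   at `x` is at least `- C x^{-κ}` for all large `x`.
4. The same for the continuation to `ℂ` and all `κ > 0`, if `L(E, s)` has an analytic continuation to
   a neighbourhood of the real axis. -/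
theorem result (K : Type) [Field K] [NumberField K] (E : WeierstrassCurve K) [E.IsElliptic]
    (W : HeightOneSpectrum (𝓞 K) → WeierstrassCurve (𝓞 K)) (_ : MinimalModels E W) :
    ∃ a : ℕ → ℝ, a 0 = 0 ∧
      (∀ s : ℂ, 3 / 2 < s.re → LSeriesHasSum (fun n => (a n : ℂ)) s (eulerProduct W s)) ∧
      (∀ δ : ℝ, 0 < δ → List.TFAE [
        Continues (eulerProduct W) δ,
        ∀ κ : ℝ, 0 < κ → κ < δ → ∀ A : ℝ, κ ≤ 2 * A → ∃ C : ℝ, ∀ x : ℝ, 2 ≤ x →
          |average a A x| ≤ C * x ^ (-(κ - κ ^ 2 / (4 * A))),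
        ∀ κ : ℝ, 0 < κ → κ < δ → ∃ A₀ : ℝ, ∀ A : ℝ, A₀ ≤ A → ∃ C : ℝ, ∀ x : ℝ, 2 ≤ x →
          |average a A x| ≤ C * x ^ (-κ),
        ∀ κ : ℝ, 0 < κ → κ < δ → ∀ A₀ : ℝ, ∃ A : ℝ, A₀ ≤ A ∧ ∃ C X : ℝ, ∀ x : ℝ, X ≤ x →
          |average a A x| ≤ C * x ^ (-κ)]) ∧
      List.TFAE [
        ContinuesToPlane (eulerProduct W),
        ∀ A : ℝ, 0 < A → ∃ C : ℝ, ∀ x : ℝ, 2 ≤ x → |average a A x| ≤ C * x ^ (-A),
        ∀ κ : ℝ, 0 < κ → ∀ A₀ : ℝ, ∃ A : ℝ, A₀ ≤ A ∧ ∃ C X : ℝ, ∀ x : ℝ, X ≤ x →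
          |average a A x| ≤ C * x ^ (-κ)] ∧
      (∀ ε : ℝ, ε = 1 ∨ ε = -1 → ∀ δ : ℝ, 0 < δ →
        (∃ G : ℂ → ℂ, (∀ x : ℝ, 3 / 2 - δ < x → AnalyticAt ℂ G x) ∧
          ∀ x : ℝ, 3 / 2 < x → G x = eulerProduct W x) →
        (Continues (eulerProduct W) δ ↔
          ∀ κ : ℝ, 0 < κ → κ < δ → ∀ A₀ : ℝ, ∃ A : ℝ, A₀ ≤ A ∧ ∃ C X : ℝ, ∀ x : ℝ, X ≤ x →
            -(C * x ^ (-κ)) ≤ ε * average a A x)) ∧
      (∀ ε : ℝ, ε = 1 ∨ ε = -1 →
        (∃ G : ℂ → ℂ, (∀ x : ℝ, AnalyticAt ℂ G x) ∧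
          ∀ x : ℝ, 3 / 2 < x → G x = eulerProduct W x) →
        (ContinuesToPlane (eulerProduct W) ↔
          ∀ κ : ℝ, 0 < κ → ∀ A₀ : ℝ, ∃ A : ℝ, A₀ ≤ A ∧ ∃ C X : ℝ, ∀ x : ℝ, X ≤ x →
            -(C * x ^ (-κ)) ≤ ε * average a A x)) := by
  classical
  have haff : ∀ v, (Nat.card {xy : (𝓞 K ⧸ v.asIdeal) × (𝓞 K ⧸ v.asIdeal) //
      ((W v).map (Ideal.Quotient.mk v.asIdeal)).toAffine.Equation xy.1 xy.2}) =
      Pool.Agent.TH339.MP.affc ((W v).map (Ideal.Quotient.mk v.asIdeal)) := by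
    intro v
    unfold Pool.Agent.TH339.MP.affc
    refine Nat.card_congr (Equiv.subtypeEquivRight fun q => ?_)
    exact WeierstrassCurve.Affine.equation_iff ..
  have hlf : ∀ v s, localFactor W v s = Pool.Agent.TH339.MP.elf W v s := by
    intro v s
    unfold localFactor Pool.Agent.TH339.MP.elf Pool.Agent.TH339.MP.lfac
    have h1 : ((Pool.Agent.TH339.MP.av W v : ℝ) : ℂ) = ((trace W v : ℤ) : ℂ) := by
      unfold Pool.Agent.TH339.MP.av trace
      rw [haff v]
      push_cast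
      rfl
    have h2 : (if (W v).Δ ∈ v.asIdeal then 0 else (Pool.Agent.TH339.MP.nm v : ℂ)) =
        ((det W v : ℤ) : ℂ) := by
      unfold det
      split_ifs
      · simp
      · rw [Int.cast_natCast]
        rfl
    rw [h1, h2]
    rfl
  have hfull : eulerProduct W = fun s => ∏' v, Pool.Agent.TH339.MP.elf W v s := by
    funext s
    unfold eulerProduct
    exact tprod_congr fun v => hlf v s
  obtain ⟨a, ha0, ha⟩ := Pool.Agent.N881.GX.ec_coeff W
  have ha' : ∀ s : ℂ, ((3 / 2 : ℝ)) < s.re →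
      LSeriesHasSum (fun n => (a n : ℂ)) s (eulerProduct W s) := by
    intro s hs
    rw [hfull]
    exact ha s hs
  have he : (3 / 2 : ℝ) ≠ 0 := by norm_num
  have havg : ∀ A x, average a A x = Pool.Agent.N881.GW.rwin a (3 / 2) A x := fun A x => rfl
  -- the continuation in the two forms
  have hC : ∀ δ : ℝ, Continues (eulerProduct W) δ ↔
      ∃ F : ℂ → ℂ, (∀ s : ℂ, (∃ b ∈ ({δ} : Set ℝ), (3 / 2 : ℝ) - b < s.re) →
        DifferentiableAt ℂ F s) ∧ ∀ s : ℂ, (3 / 2 : ℝ) < s.re → F s = eulerProduct W s := by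
    intro δ
    unfold Continues
    refine exists_congr fun F => and_congr_left fun _ => ?_
    have hop : IsOpen {s : ℂ | (3 / 2 : ℝ) - δ < s.re} :=
      isOpen_lt continuous_const Complex.continuous_re
    constructor
    · rintro h s ⟨b, hb, hlt⟩
      rw [Set.mem_singleton_iff] at hb
      rw [hb] at hlt
      exact (h s hlt).differentiableAt
    · intro h s hs
      have hd : DifferentiableOn ℂ F {s : ℂ | (3 / 2 : ℝ) - δ < s.re} := fun w hw =>
        (h w ⟨δ, rfl, hw⟩).differentiableWithinAt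
      exact hd.analyticAt (hop.mem_nhds hs)
  have hall : ∀ s : ℂ, ∃ b ∈ Set.Ioi (0 : ℝ), (3 / 2 : ℝ) - b < s.re := fun s =>
    ⟨|3 / 2 - s.re| + 1, by show 0 < |3 / 2 - s.re| + 1; positivity,
      by have := le_abs_self (3 / 2 - s.re); linarith⟩
  have hP : ContinuesToPlane (eulerProduct W) ↔
      ∃ F : ℂ → ℂ, (∀ s : ℂ, (∃ b ∈ Set.Ioi (0 : ℝ), (3 / 2 : ℝ) - b < s.re) →
        DifferentiableAt ℂ F s) ∧ ∀ s : ℂ, (3 / 2 : ℝ) < s.re → F s = eulerProduct W s := by
    unfold ContinuesToPlane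
    refine exists_congr fun F => and_congr_left fun _ => ?_
    exact ⟨fun h s _ => h s, fun h s => h s (hall s)⟩
  have hsing : ∀ {δ κ : ℝ}, (∃ b ∈ ({δ} : Set ℝ), κ < b) ↔ κ < δ := fun {δ κ} => by simp
  have hioi : ∀ {κ : ℝ}, ∃ b ∈ Set.Ioi (0 : ℝ), κ < b := fun {κ} =>
    ⟨|κ| + 1, by show 0 < |κ| + 1; positivity, by have := le_abs_self κ; linarith⟩
  have hSd : ∀ δ : ℝ, 0 < δ → ∀ b ∈ ({δ} : Set ℝ), 0 < b := by
    intro δ hδ b hb
    rw [Set.mem_singleton_iff] at hb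
    rw [hb]
    exact hδ
  -- the one-sided criterion for both signs
  have hone : ∀ ε : ℝ, ε = 1 ∨ ε = -1 → ∀ S : Set ℝ, (∀ b ∈ S, 0 < b) →
      (∃ G : ℂ → ℂ, (∀ x : ℝ, (∃ b ∈ S, (3 / 2 : ℝ) - b < x) → AnalyticAt ℂ G x) ∧
          ∀ x : ℝ, 3 / 2 < x → G x = eulerProduct W x) →
      ((∃ F : ℂ → ℂ, (∀ s : ℂ, (∃ b ∈ S, (3 / 2 : ℝ) - b < s.re) →
        DifferentiableAt ℂ F s) ∧ ∀ s : ℂ, (3 / 2 : ℝ) < s.re → F s = eulerProduct W s) ↔
        ∀ κ : ℝ, 0 < κ → (∃ b ∈ S, κ < b) → ∀ A₀ : ℝ, ∃ A : ℝ, A₀ ≤ A ∧ ∃ C X : ℝ, ∀ x : ℝ,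
          X ≤ x → -(C * x ^ (-κ)) ≤ ε * average a A x) := by
    rintro ε (rfl | rfl) S hS ⟨G, hG1, hG2⟩
    · have key := Pool.Agent.N881.GW.ds_one_sided he ha' hS hG1 hG2
      rw [key]
      simp only [one_mul, havg]
    · have hb : ∀ s : ℂ, ((3 / 2 : ℝ)) < s.re →
          LSeriesHasSum (fun n => ((-a n : ℝ) : ℂ)) s (-eulerProduct W s) := by
        intro s hs
        have h1 := (ha' s hs).neg
        refine (LSeriesHasSum_congr s _ ?_).1 h1
        intro n _
        simp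
      have key := Pool.Agent.N881.GW.ds_one_sided (a := fun n => -a n) (F0 := fun z => -G z)
        (L := fun s => -eulerProduct W s) he hb hS
        (fun x hx => (hG1 x hx).neg) (fun x hx => by simp only [hG2 x hx])
      have hneg : ∀ A x, Pool.Agent.N881.GW.rwin (fun n => -a n) (3 / 2) A x =
          -1 * average a A x := by
        intro A x
        rw [havg]
        unfold Pool.Agent.N881.GW.rwin
        have h1 : ∀ n : ℕ, -a n * (n : ℝ) ^ (-(3 / 2) : ℝ) *
            Real.exp (-(A * (Real.log n - Real.log x) ^ 2 / Real.log x)) =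
            -(a n * (n : ℝ) ^ (-(3 / 2) : ℝ) *
              Real.exp (-(A * (Real.log n - Real.log x) ^ 2 / Real.log x))) := fun n => by ring
        rw [tsum_congr h1, tsum_neg]
        ring
      rw [show (∀ κ : ℝ, 0 < κ → (∃ b ∈ S, κ < b) → ∀ A₀ : ℝ, ∃ A : ℝ, A₀ ≤ A ∧ ∃ C X : ℝ,
          ∀ x : ℝ, X ≤ x → -(C * x ^ (-κ)) ≤ -1 * average a A x) ↔
          (∀ κ : ℝ, 0 < κ → (∃ b ∈ S, κ < b) → ∀ A₀ : ℝ, ∃ A : ℝ, A₀ ≤ A ∧ ∃ C X : ℝ,
          ∀ x : ℝ, X ≤ x → -(C * x ^ (-κ)) ≤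
            Pool.Agent.N881.GW.rwin (fun n => -a n) (3 / 2) A x) by simp only [hneg], ← key]
      constructor
      · rintro ⟨F, h1, h2⟩
        exact ⟨fun s => -F s, fun s hs => (h1 s hs).neg, fun s hs => by simp only [h2 s hs]⟩
      · rintro ⟨F, h1, h2⟩
        exact ⟨fun s => -F s, fun s hs => (h1 s hs).neg, fun s hs => by
          simp only [h2 s hs, neg_neg]⟩
  refine ⟨a, ha0, ha', fun δ hδ => ?_, ?_, fun ε hε δ hδ hG => ?_, fun ε hε hG => ?_⟩
  · have key := Pool.Agent.N881.GW.ds_one he ha' (hSd δ hδ)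
    rw [← hC δ] at key
    simp only [hsing] at key
    exact key
  · have key := Pool.Agent.N881.GW.ds_one he ha' (S := Set.Ioi (0 : ℝ)) (fun b hb => hb)
    rw [← hP] at key
    have h12 := key.out 0 1
    have h14 := key.out 0 3
    tfae_have 1 → 2 := by
      intro h A hA
      obtain ⟨C, hCx⟩ := h12.1 h (2 * A) (by linarith) hioi A le_rfl
      refine ⟨C, fun x hx => ?_⟩
      have h1 := hCx x hx
      have e1 : 2 * A - (2 * A) ^ 2 / (4 * A) = A := by
        field_simp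
        ring
      rwa [e1] at h1
    tfae_have 2 → 3 := by
      intro h κ hκ A₀
      obtain ⟨C, hCx⟩ := h (max A₀ κ) (lt_of_lt_of_le hκ (le_max_right _ _))
      refine ⟨max A₀ κ, le_max_left _ _, |C|, 2, fun x hx => (hCx x hx).trans ?_⟩
      refine mul_le_mul (le_abs_self C) ?_ (Real.rpow_nonneg (by linarith) _) (abs_nonneg C)
      exact Real.rpow_le_rpow_of_exponent_le (by linarith) (neg_le_neg (le_max_right _ _))
    tfae_have 3 → 1 := by
      intro h
      exact h14.2 fun κ hκ _ A₀ => h κ hκ A₀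
    tfae_finish
  · rw [hC δ, hone ε hε {δ} (hSd δ hδ) ?_]
    · simp only [hsing]
    · obtain ⟨G, hG1, hG2⟩ := hG
      refine ⟨G, fun x hx => hG1 x ?_, hG2⟩
      obtain ⟨b, hb, hlt⟩ := hx
      rw [Set.mem_singleton_iff] at hb
      rwa [hb] at hlt
  · rw [hP, hone ε hε (Set.Ioi (0 : ℝ)) (fun b hb => hb) ?_]
    · exact ⟨fun h κ hκ => h κ hκ hioi, fun h κ hκ _ => h κ hκ⟩
    · obtain ⟨G, hG1, hG2⟩ := hG
      exact ⟨G, fun x _ => hG1 x, hG2⟩

end Pool.Agent.Results.MP_7ed9c3_nt.OnePointCriterion
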