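import Pool.Agent.N793.Fab.Ell

/-!
# One-sided bounds at a positive proportion of the indices and the continuation of `L(E, s)`

`E` is any elliptic curve over any number field `K`.  Let `c < 3/2 < α`.  The map
`z ↦ s(z) = c + (α - c) (1 + z) / (1 - z)` takes the unit disc onto the half-plane `Re s > c`, the
point `0` to `α`, and `[0, 1)` to `[α, ∞)`.  Let `ℓ_n(c)` be the Taylor coefficients at `0` of
`L(E, s(z))`; these real numbers are finite combinations of the derivatives of `L(E, s)` at `α`,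
that is, in the half-plane of absolute convergence.

The theorem characterises the continuation of `L(E, s)` by one-sided bounds for most of these
numbers.  The coefficients of a power series with radius of convergence `R < 1` which is
holomorphic near the segment `[0, 1)` cannot be `≥ - q ^ n`, `q < 1/R`, outside a set of small upper
density (this is in the circle of ideas of Pringsheim and Fabry; the proof in
`Pool.Agent.N793.Fab` applies a polynomial in `z d/dz` which is negative exactly at the exceptional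
integers, and is elementary).
-/

set_option autoImplicit false

namespace Pool.Agent.Results.MP_7ed9c3_nt.OneSidedTaylor

open NumberField IsDedekindDomain Filter

/-- `W v` is, for every finite place `v`, an integral model of `E` with discriminant minimal at
`v`. -/
def MinimalModels {K : Type} [Field K] [NumberField K] (E : WeierstrassCurve K)
    (W : HeightOneSpectrum (𝓞 K) → WeierstrassCurve (𝓞 K)) : Prop :=
  ∀ v : HeightOneSpectrum (𝓞 K),
    (∃ C : WeierstrassCurve.VariableChange K, C • (W v).map (algebraMap (𝓞 K) K) = E) ∧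
    ∀ W' : WeierstrassCurve (𝓞 K),
      (∃ C : WeierstrassCurve.VariableChange K, C • W'.map (algebraMap (𝓞 K) K) = E) →
      ∀ n : ℕ, (W v).Δ ∈ v.asIdeal ^ n → W'.Δ ∈ v.asIdeal ^ n

section

variable {K : Type} [Field K] [NumberField K]

/-- `a_v`, the norm `Nv` minus the number of affine points of the reduction of `W v`. -/
noncomputable def trace (W : HeightOneSpectrum (𝓞 K) → WeierstrassCurve (𝓞 K))
    (v : HeightOneSpectrum (𝓞 K)) : ℤ :=
  (Ideal.absNorm v.asIdeal : ℤ)
    - (Nat.card {xy : (𝓞 K ⧸ v.asIdeal) × (𝓞 K ⧸ v.asIdeal) //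
        ((W v).map (Ideal.Quotient.mk v.asIdeal)).toAffine.Equation xy.1 xy.2} : ℤ)

open Classical in
/-- `Nv` if the reduction at `v` is good and `0` if it is bad. -/
noncomputable def det (W : HeightOneSpectrum (𝓞 K) → WeierstrassCurve (𝓞 K))
    (v : HeightOneSpectrum (𝓞 K)) : ℤ :=
  if (W v).Δ ∈ v.asIdeal then 0 else (Ideal.absNorm v.asIdeal : ℤ)

/-- The Euler factor at `v`, `(1 - a_v Nv^{-s} + Nv^{1-2s})⁻¹` if the reduction at `v` is good and
`(1 - a_v Nv^{-s})⁻¹` if it is bad. -/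
noncomputable def localFactor (W : HeightOneSpectrum (𝓞 K) → WeierstrassCurve (𝓞 K))
    (v : HeightOneSpectrum (𝓞 K)) (s : ℂ) : ℂ :=
  (1 - (trace W v : ℂ) * (Ideal.absNorm v.asIdeal : ℂ) ^ (-s)
    + (det W v : ℂ) * (Ideal.absNorm v.asIdeal : ℂ) ^ (-2 * s))⁻¹

/-- The `L`-series, as the Euler product over all finite places. -/
noncomputable def LSeries (W : HeightOneSpectrum (𝓞 K) → WeierstrassCurve (𝓞 K)) (s : ℂ) : ℂ :=
  ∏' v : HeightOneSpectrum (𝓞 K), localFactor W v s

/-- `L(E, s(z))` with `s(z) = c + (α - c) (1 + z) / (1 - z)`. -/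
noncomputable def inDisc (W : HeightOneSpectrum (𝓞 K) → WeierstrassCurve (𝓞 K)) (c α : ℝ)
    (z : ℂ) : ℂ :=
  LSeries W ((c : ℂ) + ((α : ℂ) - c) * (1 + z) / (1 - z))

/-- The `n`-th Taylor coefficient of a function at `0`. -/
noncomputable def taylor (F : ℂ → ℂ) (n : ℕ) : ℂ := (n.factorial : ℂ)⁻¹ * iteratedDeriv n F 0

/-- `L(E, s)` has a holomorphic continuation to the half-plane `Re s > c`. -/
def ContinuesTo (W : HeightOneSpectrum (𝓞 K) → WeierstrassCurve (𝓞 K)) (c : ℝ) : Prop :=
  ∃ F : ℂ → ℂ, DifferentiableOn ℂ F {s : ℂ | c < s.re} ∧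
    ∀ s : ℂ, 3 / 2 < s.re → F s = LSeries W s

/-- `L(E, s)` has a holomorphic continuation without zeros to the half-plane `Re s > c`. -/
def ContinuesWithoutZeros (W : HeightOneSpectrum (𝓞 K) → WeierstrassCurve (𝓞 K)) (c : ℝ) : Prop :=
  ∃ F : ℂ → ℂ, DifferentiableOn ℂ F {s : ℂ | c < s.re} ∧ (∀ s : ℂ, c < s.re → F s ≠ 0) ∧
    ∀ s : ℂ, 3 / 2 < s.re → F s = LSeries W s

/-- `L(E, s)` is an entire function. -/
def IsEntire (W : HeightOneSpectrum (𝓞 K) → WeierstrassCurve (𝓞 K)) : Prop :=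
  ∃ F : ℂ → ℂ, Differentiable ℂ F ∧ ∀ s : ℂ, 3 / 2 < s.re → F s = LSeries W s

end

/-- For all large `N` at most `d N` of the integers from `1` to `N` belong to `A`. -/
def Rare (A : Set ℕ) (d : ℝ) : Prop :=
  ∀ᶠ N : ℕ in atTop, ((A ∩ Set.Icc 1 N).ncard : ℝ) ≤ d * N

/-- **One-sided bounds for most Taylor coefficients are equivalent to analytic continuation.**
There are an absolute constant `δ₀ > 0` and an absolute function `δ(ε) > 0`, `ε > 0`, such that the
following holds for every elliptic curve `E` over every number field `K` and every real `α > 3/2`.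
Let `ℓ_n(c)` be the `n`-th Taylor coefficient at `0` of `L(E, s(z))` and `m_n(c)` that of
`d/dz log L(E, s(z))`, where `s(z) = c + (α - c) (1 + z) / (1 - z)`.  These numbers are real.

1. Let `c < 3/2`.  `L(E, s)` has a holomorphic continuation to `Re s > c` if and only if for every
   `ε > 0` and all large `N` the inequality `ℓ_n(c) ≥ - e^{ε n}` fails for at most `δ(ε) N` of the
   `n ≤ N`; and the same with `ℓ_n(c) ≤ e^{ε n}`.
2. `L(E, s)` has a holomorphic continuation without zeros to `Re s > c` if and only if the same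
   holds for the `m_n(c)` instead of the `ℓ_n(c)`.
3. `L(E, s)` is entire if and only if there is a number `θ`, however large, such that for
   infinitely many positive integers `k` and all large `N` the inequality `ℓ_n(-k) ≥ - e^{θ n}`
   fails for at most `δ₀ N` of the `n ≤ N`; and the same with `ℓ_n(-k) ≤ e^{θ n}`. -/
theorem result : ∃ (δ₀ : ℝ) (δ : ℝ → ℝ), 0 < δ₀ ∧ (∀ ε : ℝ, 0 < δ ε) ∧
    ∀ (K : Type) [Field K] [NumberField K] (E : WeierstrassCurve K) [E.IsElliptic]
      (W : HeightOneSpectrum (𝓞 K) → WeierstrassCurve (𝓞 K)) (_ : MinimalModels E W)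
      (α : ℝ) (_ : 3 / 2 < α),
      (∀ c : ℝ, c < 3 / 2 →
        (∀ n : ℕ, (taylor (inDisc W c α) n).im = 0) ∧
        (ContinuesTo W c ↔
          ∀ ε > 0, Rare {n : ℕ | (taylor (inDisc W c α) n).re < -Real.exp (ε * n)} (δ ε)) ∧
        (ContinuesTo W c ↔
          ∀ ε > 0, Rare {n : ℕ | Real.exp (ε * n) < (taylor (inDisc W c α) n).re} (δ ε))) ∧
      (∀ c : ℝ, c < 3 / 2 →
        (∀ n : ℕ, (taylor (logDeriv (inDisc W c α)) n).im = 0) ∧
        (ContinuesWithoutZeros W c ↔ ∀ ε > 0,
          Rare {n : ℕ | (taylor (logDeriv (inDisc W c α)) n).re < -Real.exp (ε * n)} (δ ε)) ∧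
        (ContinuesWithoutZeros W c ↔ ∀ ε > 0,
          Rare {n : ℕ | Real.exp (ε * n) < (taylor (logDeriv (inDisc W c α)) n).re} (δ ε))) ∧
      (IsEntire W ↔ ∃ θ : ℝ, ∃ᶠ k : ℕ in atTop,
        Rare {n : ℕ | (taylor (inDisc W (-(k : ℝ)) α) n).re < -Real.exp (θ * n)} δ₀) ∧
      (IsEntire W ↔ ∃ θ : ℝ, ∃ᶠ k : ℕ in atTop,
        Rare {n : ℕ | Real.exp (θ * n) < (taylor (inDisc W (-(k : ℝ)) α) n).re} δ₀) := by
  refine ⟨Pool.Agent.N793.Fab.dl (1 / 2), Pool.Agent.N793.Fab.dd, Pool.Agent.N793.Fab.dl_pos _,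
    Pool.Agent.N793.Fab.dd_pos, ?_⟩
  intro K _ _ E _ W _ α hα
  classical
  have haff : ∀ v, (Nat.card {xy : (𝓞 K ⧸ v.asIdeal) × (𝓞 K ⧸ v.asIdeal) //
      ((W v).map (Ideal.Quotient.mk v.asIdeal)).toAffine.Equation xy.1 xy.2}) =
      Pool.Agent.TH339.MP.affc ((W v).map (Ideal.Quotient.mk v.asIdeal)) := by
    intro v
    unfold Pool.Agent.TH339.MP.affc
    refine Nat.card_congr (Equiv.subtypeEquivRight fun q => ?_)
    exact WeierstrassCurve.Affine.equation_iff ..
  have htr : ∀ v, trace W v = Pool.Agent.N881.GW.av' W v := by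
    intro v
    unfold trace Pool.Agent.N881.GW.av'
    rw [haff v]
    rfl
  have hlf : ∀ v s, localFactor W v s = Pool.Agent.TH339.MP.elf W v s := by
    intro v s
    unfold localFactor Pool.Agent.TH339.MP.elf Pool.Agent.TH339.MP.lfac
    have h1 : ((Pool.Agent.TH339.MP.av W v : ℝ) : ℂ) = ((trace W v : ℤ) : ℂ) := by
      rw [htr, ← Pool.Agent.N881.GW.av'_eq]
      push_cast
      rfl
    have h2 : (if (W v).Δ ∈ v.asIdeal then 0 else (Pool.Agent.TH339.MP.nm v : ℂ)) =
        ((det W v : ℤ) : ℂ) := by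
      unfold det
      split_ifs
      · simp
      · rw [Int.cast_natCast]
        rfl
    rw [h1, h2]
    rfl
  have hfull : LSeries W = Pool.Agent.N793.Fab.LS W := by
    funext s
    unfold LSeries Pool.Agent.N793.Fab.LS
    exact tprod_congr fun v => hlf v s
  have hd : DifferentiableOn ℂ (LSeries W) {s : ℂ | 3 / 2 < s.re} := by
    rw [hfull]
    exact Pool.Agent.N793.Fab.LS_diff W
  have hne : ∀ s : ℂ, 3 / 2 < s.re → LSeries W s ≠ 0 := by
    rw [hfull]
    exact fun s hs => Pool.Agent.N793.Fab.LS_ne W hs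
  have hcj : ∀ s : ℂ, 3 / 2 < s.re →
      LSeries W (starRingEnd ℂ s) = starRingEnd ℂ (LSeries W s) := by
    rw [hfull]
    exact fun s hs => Pool.Agent.N793.Fab.LS_conj W hs
  refine ⟨fun c hc => ?_, fun c hc => ?_, ?_, ?_⟩
  · obtain ⟨h1, -, h3, h4⟩ := Pool.Agent.N793.Fab.half_iff hc hα hd hcj
    exact ⟨h1, h3, h4⟩
  · obtain ⟨h1, -, h3, h4⟩ := Pool.Agent.N793.Fab.half_iff_ne hc hα hd hne hcj
    exact ⟨h1, h3, h4⟩
  · exact Pool.Agent.N793.Fab.entire_iff (by norm_num) hα hd hcj
  · exact Pool.Agent.N793.Fab.entire_iff' (by norm_num) hα hd hcj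

end Pool.Agent.Results.MP_7ed9c3_nt.OneSidedTaylor
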