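import Mathlib
import Pool.Agent.N534.EC.TwMaj

/-!
# All quadratic twists of an elliptic curve over a number field near the whole line `Re s = 3/2`

`K` is an arbitrary number field with an integral basis `ω_i`, `i ∈ I`, and `E : y² = x³ + a x + b`, `a, b ∈ 𝓞 K`, is any elliptic
curve over `K`. For an integer vector `c` let `d(c) = ∑ c_i ω_i`, and let `E_d : y² = x³ + a d² x + b d³` be the twist of `E` by
the quadratic character of `K(√d)/K`. The theorem is about all `d(c)` with coordinates `|c_i| ≤ H` (so all quadratic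
extensions of `K` occur). All Euler factors of `L(E_d/K, s)` are included, given by models with minimal discriminant.

For a general number field `K` the continuation of `L(E_d/K, s)` to the line `Re s = 3/2` is not known for a single twist. The
theorem says that on the average over the twists nothing prevents it: the mean over `d` of the square of the
supremum of `|log L(E_d/K, s)|` over the rectangle `3/2 + 1/log H ≤ Re s ≤ 5/2`, `|Im s| ≤ T` is at most
`C (1 + T)`, where `C` depends neither on `H` nor on `T`; so outside a proportion `δ` of the twists `L` is bounded from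
above and from below by `exp (± (C (1 + T) / δ) ^ (1/2))` in the whole rectangle. (The trivial bound for `|log L|` at the
distance `ε` from the line is `2 [K : ℚ] log (1/ε) + O(1)`; a zero or a pole on the line makes `|log L|` as large as
`log (1/ε)`.) Here `log L` is the logarithm given by the Euler product. The theorem
`MP_7ed9c3_nt.TwistOrders` (starting files) bounds the orders of zeros and poles on the line, for all twists for which there is a
local continuation; here there is no such hypothesis, and `L` is bounded in the whole rectangle.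

Proof. The traces of `E_d` at the primes of degree one above `p` are, at the primes not dividing `6 d (4 a³ + 27 b²)`,
the traces of `E` times `χ_v(d)`, functions of `c` modulo `p` with mean zero. Up to `O(1)` the logarithm is, in the mean over the
twists, the corresponding Dirichlet polynomial over `p ≤ H^{1/4}`; its second moment is bounded on and to the left of the line,
and the supremum is bounded by Cauchy's formula on circles.
-/

set_option autoImplicit false

open NumberField IsDedekindDomain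

namespace Pool.Agent.Results.MP_7ed9c3_nt.QuadraticTwistsEdgeLine

section
variable {K : Type} [Field K] [NumberField K]

/-- `M v` is, for every `v`, an integral model of `E` with discriminant minimal at `v`. -/
def MinimalModels (E : WeierstrassCurve K) (M : HeightOneSpectrum (𝓞 K) → WeierstrassCurve (𝓞 K)) : Prop :=
  ∀ v : HeightOneSpectrum (𝓞 K),
    (∃ C : WeierstrassCurve.VariableChange K, C • E = (M v).map (algebraMap (𝓞 K) K)) ∧
    ∀ W : WeierstrassCurve (𝓞 K),
      (∃ C : WeierstrassCurve.VariableChange K, C • E = W.map (algebraMap (𝓞 K) K)) →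
        ∀ n : ℕ, (M v).Δ ∈ v.asIdeal ^ n → W.Δ ∈ v.asIdeal ^ n

open Classical in
/-- The polynomial `1 - a_v T + q_v T²`, or `1 - a_v T` at a prime of bad reduction, at `T = q_v^{-s}`; here
`a_v` is `q_v` minus the number of the affine points of the reduction of the model `M v`. -/
noncomputable def factor (M : HeightOneSpectrum (𝓞 K) → WeierstrassCurve (𝓞 K)) (s : ℂ)
    (v : HeightOneSpectrum (𝓞 K)) : ℂ :=
  1 - ((((Ideal.absNorm v.asIdeal : ℕ) : ℤ) -
          ((Nat.card {p : (𝓞 K ⧸ v.asIdeal) × (𝓞 K ⧸ v.asIdeal) //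
            p.2 ^ 2 + Ideal.Quotient.mk v.asIdeal (M v).a₁ * p.1 * p.2
              + Ideal.Quotient.mk v.asIdeal (M v).a₃ * p.2
            = p.1 ^ 3 + Ideal.Quotient.mk v.asIdeal (M v).a₂ * p.1 ^ 2
              + Ideal.Quotient.mk v.asIdeal (M v).a₄ * p.1
              + Ideal.Quotient.mk v.asIdeal (M v).a₆} : ℕ) : ℤ) : ℤ) : ℂ)
          * ((Ideal.absNorm v.asIdeal : ℕ) : ℂ) ^ (-s)
      + (if (M v).Δ ∈ v.asIdeal then (0 : ℂ) else 1)
          * ((Ideal.absNorm v.asIdeal : ℕ) : ℂ) ^ (1 - 2 * s)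

/-- `L(E/K, s)`. -/
noncomputable def LSeries (M : HeightOneSpectrum (𝓞 K) → WeierstrassCurve (𝓞 K)) (s : ℂ) : ℂ :=
  ∏' v : HeightOneSpectrum (𝓞 K), (factor M s v)⁻¹

/-- The logarithm of `L(E/K, s)` given by the Euler product. -/
noncomputable def logL (M : HeightOneSpectrum (𝓞 K) → WeierstrassCurve (𝓞 K)) (s : ℂ) : ℂ :=
  ∑' v : HeightOneSpectrum (𝓞 K), -Complex.log (factor M s v)

variable {I : Type} [Fintype I] [DecidableEq I]

/-- `d(c) = ∑ c_i ω_i`. -/
noncomputable def d (ω : Module.Basis I ℤ (𝓞 K)) (c : I → ℤ) : 𝓞 K := ∑ i, ((c i : ℤ) : 𝓞 K) * ω i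

/-- The twist `E_d : y² = x³ + a d² x + b d³`, `d = d(c)`. -/
noncomputable def twist (ω : Module.Basis I ℤ (𝓞 K)) (a b : 𝓞 K) (c : I → ℤ) : WeierstrassCurve K where
  a₁ := 0
  a₂ := 0
  a₃ := 0
  a₄ := (a * d ω c ^ 2 : 𝓞 K)
  a₆ := (b * d ω c ^ 3 : 𝓞 K)

/-- The integer vectors with coordinates of absolute value at most `H`. -/
noncomputable def box (ι : Type) [Fintype ι] [DecidableEq ι] (H : ℕ) : Finset (ι → ℤ) :=
  Fintype.piFinset fun _ => Finset.Icc (-(H : ℤ)) H

/-- The rectangle `3/2 + 1/log H ≤ Re s ≤ 5/2`, `|Im s| ≤ T`. -/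
def rectangle (H : ℕ) (T : ℝ) : Set ℂ :=
  {s | 3 / 2 + 1 / Real.log H ≤ s.re ∧ s.re ≤ 5 / 2 ∧ |s.im| ≤ T}

/-- **The quadratic twists of an elliptic curve over a number field near the line `Re s = 3/2`.** -/
theorem result (ω : Module.Basis I ℤ (𝓞 K)) (a b : 𝓞 K) (hE : 4 * a ^ 3 + 27 * b ^ 2 ≠ 0) :
    (∀ (M : HeightOneSpectrum (𝓞 K) → WeierstrassCurve (𝓞 K)) (s : ℂ), 3 / 2 < s.re →
      LSeries M s = Complex.exp (logL M s)) ∧
    ∃ C : ℝ, 0 < C ∧ ∀ H : ℕ, 2 ≤ H → ∀ T : ℝ, 0 ≤ T →
      (∀ S ⊆ box I H, ∀ (M : (I → ℤ) → HeightOneSpectrum (𝓞 K) → WeierstrassCurve (𝓞 K))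
        (s : (I → ℤ) → ℂ), (∀ c ∈ S, MinimalModels (twist ω a b c) (M c)) →
        (∀ c ∈ S, s c ∈ rectangle H T) →
        ∑ c ∈ S, ‖logL (M c) (s c)‖ ^ 2 ≤ C * (1 + T) * (box I H).card) ∧
      (∀ δ : ℝ, 0 < δ → ∃ X ⊆ box I H, (X.card : ℝ) ≤ δ * (box I H).card ∧
        ∀ c ∈ box I H \ X, ∀ M : HeightOneSpectrum (𝓞 K) → WeierstrassCurve (𝓞 K),
          MinimalModels (twist ω a b c) M → ∀ s ∈ rectangle H T,
            ‖logL M s‖ ≤ Real.sqrt (C * (1 + T) / δ)) := by
  have hlog : ∀ (M : HeightOneSpectrum (𝓞 K) → WeierstrassCurve (𝓞 K)) (s : ℂ),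
      logL M s = ∑' v : HeightOneSpectrum (𝓞 K), Pool.Agent.N534.EC.ll M (s - 3 / 2) v := by
    intro M s
    have e : (3 / 2 + (s - 3 / 2) : ℂ) = s := by ring
    unfold Pool.Agent.N534.EC.ll
    rw [e]
    rfl
  refine ⟨?_, ?_⟩
  · intro M s hs
    have h1 := Pool.Agent.N534.EC.exp_ll M (u := s - 3 / 2) (by
      have : (s - 3 / 2 : ℂ).re = s.re - 3 / 2 := by simp
      rw [this]
      linarith)
    have e : (3 / 2 + (s - 3 / 2) : ℂ) = s := by ring
    rw [e, ← hlog] at h1
    exact h1
  · obtain ⟨C, hC, h⟩ := Pool.Agent.N534.EC.majorant_twist ω a b hE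
    refine ⟨C, hC, fun H hH T hT => ?_⟩
    obtain ⟨M', hM0, hM1, hM2⟩ := h H hH T hT
    have hlogH : 0 < Real.log H := Real.log_pos (by exact_mod_cast (by omega : 1 < H))
    have hone : ∀ (c : I → ℤ) (M : HeightOneSpectrum (𝓞 K) → WeierstrassCurve (𝓞 K)),
        MinimalModels (twist ω a b c) M → ∀ s ∈ rectangle H T, ‖logL M s‖ ^ 2 ≤ M' c := by
      intro c M hM s hs
      obtain ⟨h1, h2, h3⟩ := hs
      rw [hlog]
      have e1 : (s - 3 / 2 : ℂ).re = s.re - 3 / 2 := by simp
      have e2 : (s - 3 / 2 : ℂ).im = s.im := by simp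
      refine hM2 c M hM (s - 3 / 2) ?_ ?_ ?_
      · rw [e1]; linarith
      · rw [e1]; linarith
      · rw [e2]; exact h3
    have hB : (0 : ℝ) < (2 * H + 1 : ℝ) ^ Fintype.card I := by positivity
    have hcard : ((box I H).card : ℝ) = (2 * H + 1 : ℝ) ^ Fintype.card I :=
      Pool.Agent.Y722.HS.card_box H
    have hsum : ∑ c ∈ box I H, M' c ≤ C * (1 + T) * (box I H).card := by
      have e3 : Pool.Agent.Y722.HS.EB H M' = (∑ c ∈ box I H, M' c) /
          (2 * H + 1 : ℝ) ^ Fintype.card I := rfl
      rw [e3, div_le_iff₀ hB, ← hcard] at hM1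
      exact hM1
    refine ⟨fun S hS M s hM hs => ?_, fun δ hδ => ?_⟩
    · calc _ ≤ ∑ c ∈ S, M' c := Finset.sum_le_sum fun c hc => hone c (M c) (hM c hc) (s c) (hs c hc)
        _ ≤ ∑ c ∈ box I H, M' c := Finset.sum_le_sum_of_subset_of_nonneg hS fun c _ _ => hM0 c
        _ ≤ _ := hsum
    · have hCT : 0 < C * (1 + T) := by positivity
      refine ⟨(box I H).filter (fun c => C * (1 + T) / δ < M' c), Finset.filter_subset _ _, ?_, ?_⟩
      · have h1 : (((box I H).filter (fun c => C * (1 + T) / δ < M' c)).card : ℝ) *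
            (C * (1 + T) / δ) ≤ ∑ c ∈ (box I H).filter (fun c => C * (1 + T) / δ < M' c), M' c := by
          rw [← nsmul_eq_mul]
          exact Finset.card_nsmul_le_sum _ _ _ fun c hc => (Finset.mem_filter.mp hc).2.le
        have h2 : ∑ c ∈ (box I H).filter (fun c => C * (1 + T) / δ < M' c), M' c ≤
            ∑ c ∈ box I H, M' c :=
          Finset.sum_le_sum_of_subset_of_nonneg (Finset.filter_subset _ _) fun c _ _ => hM0 c
        have h3 := (h1.trans h2).trans hsum
        rw [mul_div_assoc', div_le_iff₀ hδ] at h3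
        have h4 : (C * (1 + T)) * (((box I H).filter (fun c => C * (1 + T) / δ < M' c)).card : ℝ) ≤
            (C * (1 + T)) * (δ * (box I H).card) := by linarith
        exact le_of_mul_le_mul_left h4 hCT
      · intro c hc M hM s hs
        rw [Finset.mem_sdiff, Finset.mem_filter, not_and, not_lt] at hc
        exact Real.le_sqrt_of_sq_le ((hone c M hM s hs).trans (hc.2 hc.1))

end

end Pool.Agent.Results.MP_7ed9c3_nt.QuadraticTwistsEdgeLine
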