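import Mathlib
import Pool.Agent.N534.EC.State

/-!
# Random elliptic curves over an arbitrary number field: the limit law on the edge `Re s = 3/2`

`K` is an arbitrary number field with an integral basis `ω_i`, `i ∈ I`, and `A`, `B` are any polynomials in finitely many
variables `u_j`, `j ∈ J`, with coefficients in `𝓞 K`. The theorem is about the curves

`E_c : y² = x³ + a(c) x + b(c)`, `a(c) = A(u)`, `b(c) = B(u) + ∑ t_i ω_i`,

where `c = (t, u)` runs through the integer vectors with coordinates of absolute value at most `H`. Examples: all the curves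
`y² = x³ + a x + b` where `a` and `b` are algebraic integers with coordinates of absolute value at most `H`,
and, with `J` empty, the curves `y² = x³ + a x + b + t` for fixed `a`, `b`. The `L`-function is taken here
without the Euler factors at the primes dividing `6 (4 a³ + 27 b²)`.

The continuation of `L(E_c, s)` to the line `Re s = 3/2` is not known for a general field `K`. The theorem determines
the distribution of the values near this line, and to the right of it: for finitely many points `s_k` with `Re s_k ≥ 3/2` and for
any points `σ_k(H) → s_k` with `(Re σ_k(H) - 3/2) log H → ∞`, the joint distribution of the numbers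
`L(E_c, σ_k(H))`, for random `c`, converges to the joint distribution of the values `exp (Z_k)` of the random Euler
product at the points `s_k`. In the random Euler product the residue classes of `c` modulo the rational primes `p` are
independent and uniform; `Z_k` is the limit in the mean of the sums over `p ≤ z` of the logarithms of the Euler factors above `p`
at the point `s_k`, which may be on the line itself. So in the limit law the value has no mass at `0` and at infinity, at all
points of the line. No modularity, no zero-free region and no bound near the line is assumed.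

Proof. The part of the logarithm from the primes `z < p ≤ H^{1/4}` is `O(z^{-1/4})` in the mean over the box, up to and on the line:
the sums of the traces at the primes of degree one above `p` are functions of `c` modulo `p` with mean zero, by the
average over `t`, and Weil's bound holds for all cubics; the primes `p > H^{1/4}` contribute
`O(1 / ((Re σ - 3/2) log H))`. The finitely many primes `p ≤ z` are treated by the Chinese remainder theorem.
-/

set_option autoImplicit false

open NumberField IsDedekindDomain MeasureTheory Filter Topology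

namespace Pool.Agent.Results.MP_7ed9c3_nt.RandomCurvesLimitLaw

section
variable {K : Type} [Field K] [NumberField K]

/-- `6 (4 a³ + 27 b²)`. -/
noncomputable def disc (a b : 𝓞 K) : 𝓞 K := 6 * (4 * a ^ 3 + 27 * b ^ 2)

open Classical in
/-- The Euler factor of `y² = x³ + a x + b` at a prime `v`, with `T = q_v^{-s}`: it is `1 - a_v T + q_v T²`, where `a_v` is `q_v` minus
the number of the affine points of the reduction, and `1` if `v` divides `6 (4 a³ + 27 b²)`. -/
noncomputable def factor (a b : 𝓞 K) (s : ℂ) (v : HeightOneSpectrum (𝓞 K)) : ℂ :=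
  if disc a b ∈ v.asIdeal then 1 else
    1 - ((((Ideal.absNorm v.asIdeal : ℕ) : ℤ) -
          ((Nat.card {p : (𝓞 K ⧸ v.asIdeal) × (𝓞 K ⧸ v.asIdeal) //
            p.2 ^ 2 = p.1 ^ 3 + Ideal.Quotient.mk v.asIdeal a * p.1 + Ideal.Quotient.mk v.asIdeal b} : ℕ) : ℤ) : ℤ) : ℂ)
          * ((Ideal.absNorm v.asIdeal : ℕ) : ℂ) ^ (-s)
      + ((Ideal.absNorm v.asIdeal : ℕ) : ℂ) ^ (1 - 2 * s)

/-- The `L`-function of `y² = x³ + a x + b` without the Euler factors at the primes dividing `6 (4 a³ + 27 b²)`. -/
noncomputable def LSeries (a b : 𝓞 K) (s : ℂ) : ℂ :=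
  ∏' v : HeightOneSpectrum (𝓞 K), (factor a b s v)⁻¹

/-- Vectors of residue classes, one for each rational prime. -/
abbrev Residues (ι : Type) : Type := ∀ p : Nat.Primes, ι → ZMod (p : ℕ)

/-- The residue classes are independent and uniform. -/
noncomputable def uniform (ι : Type) [Fintype ι] [DecidableEq ι] : Measure (Residues ι) :=
  Measure.infinitePi fun p => (PMF.uniformOfFintype (ι → ZMod (p : ℕ))).toMeasure

/-- An integer vector in the residue class modulo `p`. -/
def lift {ι : Type} (x : Residues ι) (p : Nat.Primes) : ι → ℤ := fun i => ((x p i).val : ℤ)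

/-- The integer vectors with coordinates of absolute value at most `H`. -/
noncomputable def box (ι : Type) [Fintype ι] [DecidableEq ι] (H : ℕ) : Finset (ι → ℤ) :=
  Fintype.piFinset fun _ => Finset.Icc (-(H : ℤ)) H

/-- The prime numbers up to `z`. -/
def primesUpTo (z : ℕ) : Finset Nat.Primes := (Finset.range (z + 1)).subtype Nat.Prime

/-- The logarithm of the random Euler product over the primes above the rational primes `p ≤ z`: the Euler factors above `p` are those
of the curve given by the residue classes modulo `p`. -/
noncomputable def randomLog {ι : Type} (a b : (ι → ℤ) → 𝓞 K) (z : ℕ) (s : ℂ) (x : Residues ι) : ℂ :=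
  ∑ p ∈ primesUpTo z,
    ∑ᶠ v : {v : HeightOneSpectrum (𝓞 K) // ((p : ℕ) : 𝓞 K) ∈ v.asIdeal},
      -Complex.log (factor (a (lift x p)) (b (lift x p)) s v.1)

variable {I J : Type} [Fintype I] [Fintype J] [DecidableEq I] [DecidableEq J]

/-- `A(u)`, for `c = (t, u)`. -/
noncomputable def coeffA (A : MvPolynomial J (𝓞 K)) (c : I ⊕ J → ℤ) : 𝓞 K :=
  MvPolynomial.eval (fun j => ((c (Sum.inr j) : ℤ) : 𝓞 K)) A

/-- `B(u) + ∑ t_i ω_i`, for `c = (t, u)`. -/
noncomputable def coeffB (ω : Module.Basis I ℤ (𝓞 K)) (B : MvPolynomial J (𝓞 K)) (c : I ⊕ J → ℤ) : 𝓞 K :=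
  MvPolynomial.eval (fun j => ((c (Sum.inr j) : ℤ) : 𝓞 K)) B + ∑ i, ((c (Sum.inl i) : ℤ) : 𝓞 K) * ω i

/-- **The limit law of the `L`-functions of random elliptic curves over a number field, up to the line `Re s = 3/2`.** -/
theorem result (ω : Module.Basis I ℤ (𝓞 K)) (A B : MvPolynomial J (𝓞 K))
    {κ : Type} [Fintype κ] (s : κ → ℂ) (hs : ∀ k, 3 / 2 ≤ (s k).re) :
    ∃ Z : κ → Residues (I ⊕ J) → ℂ,
      (∀ k, Measurable (Z k)) ∧ (∀ k, Integrable (Z k) (uniform (I ⊕ J))) ∧
      (∀ k, Tendsto (fun z : ℕ => ∫ x, ‖randomLog (coeffA A) (coeffB ω B) z (s k) x - Z k x‖ ∂(uniform (I ⊕ J)))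
        atTop (𝓝 0)) ∧
      ∀ σ : ℕ → κ → ℂ, (∀ k, Tendsto (fun H => σ H k) atTop (𝓝 (s k))) →
        (∀ k, Tendsto (fun H : ℕ => ((σ H k).re - 3 / 2) * Real.log H) atTop atTop) →
        (∀ F : (κ → ℂ) → ℝ, Continuous F → (∃ C : ℝ, ∀ y, |F y| ≤ C) →
          Tendsto (fun H : ℕ => (∑ c ∈ box (I ⊕ J) H, F (fun k => LSeries (coeffA A c) (coeffB ω B c) (σ H k))) /
            (box (I ⊕ J) H).card) atTop (𝓝 (∫ x, F (fun k => Complex.exp (Z k x)) ∂(uniform (I ⊕ J))))) ∧
        (∀ E : Set (κ → ℂ), MeasurableSet E →
          uniform (I ⊕ J) {x | (fun k => Complex.exp (Z k x)) ∈ frontier E} = 0 →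
          Tendsto (fun H : ℕ => (open Classical in ((box (I ⊕ J) H).filter
            (fun c => (fun k => LSeries (coeffA A c) (coeffB ω B c) (σ H k)) ∈ E)).card : ℝ) /
              (box (I ⊕ J) H).card) atTop
            (𝓝 ((uniform (I ⊕ J)).real {x | (fun k => Complex.exp (Z k x)) ∈ E}))) :=
  Pool.Agent.N534.EC.State.state (Pool.Agent.N534.EC.sys_two ω A B) s hs

end

end Pool.Agent.Results.MP_7ed9c3_nt.RandomCurvesLimitLaw
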